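import Pool.Agent.W823.SFD.Tail

/-!
# The weighted distance in scale-free percolation is at most the sum of the explosion times

Scale-free percolation on `ℤ^d` with regularly varying vertex-weights and arbitrary edge-weights in
the explosive regime. For all `d ≥ 1`, `α > d`, `λ > 0`, `τ > 1` with `γ = α (τ - 1) / d` in
`(1, 2)`, all vertex-weight laws on `[1, ∞)` with `P (W > t) = ℓ (t) t ^ (-(τ - 1))`, `ℓ` slowly
varying, and all edge-weight laws on `[0, ∞)` with `I (L) < ∞`: almost surely
`d_L (x, y) ≤ V_x + V_y` for all vertices `x`, `y`.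
-/

set_option autoImplicit false

namespace Pool.Agent.Results.MP_3c35f6_pr.DistanceExplosion

open MeasureTheory ProbabilityTheory Filter Pool.Agent.W823.SFP Pool.Agent.W823.SFD

theorem result (d : ℕ) (hd : 1 ≤ d) (α lam τ : ℝ) (hα : (d : ℝ) < α) (hlam : 0 < lam)
    (hτ : 1 < τ) (hγ1 : 1 < α * (τ - 1) / d) (hγ2 : α * (τ - 1) / d < 2)
    -- the law of the vertex-weights
    (μW : Measure ℝ) (hW : IsProbabilityMeasure μW) (hone : μW (Set.Ici 1) = 1)
    (hreg : RegVar μW (τ - 1))
    -- the law of the edge-weights
    (μL : Measure ℝ) (hL : IsProbabilityMeasure μL) (_hpos : μL (Set.Iio 0) = 0)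
    (hI : IL μL < ⊤) :
    -- the joint law is a probability measure
    IsProbabilityMeasure (law d μW μL) ∧
    ∀ᵐ ω ∂(law d μW μL),
      -- the explosion times are the limits of the `τ_n (x)`
      (∀ x : Site d, Tendsto (tau α lam ω x) atTop (nhds (expl α lam ω x))) ∧
      ∀ x y : Site d, dL α lam ω x y ≤ expl α lam ω x + expl α lam ω y := by
  have hd1 : (0 : ℝ) < d := by
    have : (1 : ℝ) ≤ d := by exact_mod_cast hd
    linarith
  have hβ : 0 < τ - 1 := by linarith
  have h : HypG d α lam (τ - 1) μW μL :=
    { hd := hd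
      hα := hα
      hlam := hlam
      hβ := hβ
      hγ1 := by rwa [lt_div_iff₀ hd1, one_mul] at hγ1
      hγ2 := by rwa [div_lt_iff₀ hd1] at hγ2
      probW := hW
      probL := hL
      one := hone
      lo := lo_of hβ hreg
      mo := fun κ h0 h1 => mo_of hone hreg κ h0 h1
      posL := posL_of hI }
  refine ⟨?_, ?_⟩
  · have := prob_marg (d := d) hW hL
    unfold law
    infer_instance
  · filter_upwards [main h] with ω hω
    refine ⟨fun x => ?_, hω⟩
    have hmono : Monotone (tau α lam ω x) := by
      intro m n hmn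
      unfold tau
      apply sInf_le_sInf
      intro t ht
      have : ((m : ℕ) : ℕ∞) ≤ (n : ℕ∞) := by exact_mod_cast hmn
      exact this.trans ht
    exact tendsto_atTop_iSup hmono

end Pool.Agent.Results.MP_3c35f6_pr.DistanceExplosion
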